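import Mathlib
set_option autoImplicit false
namespace Pool.Agent.MP7697eaLib

noncomputable def R (k : ℕ) (w : ℂ) : ℂ := (ascPochhammer ℂ k).eval w

noncomputable def T (z : ℂ) (k : Fin 3 → ℕ) : ℂ :=
  (Nat.multinomial Finset.univ k : ℂ) * (∏ i, (((Nat.choose 11 (k i) : ℕ) : ℝ) : ℂ)) *
              Matrix.det (Matrix.of (fun i j : Fin 3 =>
                (ascPochhammer ℂ (k i)).eval (z + ((j : ℕ) : ℂ) - ((i : ℕ) : ℂ))))

noncomputable def U (z : ℂ) (a b c : ℕ) : ℂ :=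
  (((a + b + c).factorial / (a.factorial * b.factorial * c.factorial) : ℕ) : ℂ) * ((Nat.choose 11 a : ℂ) * (Nat.choose 11 b : ℂ) * (Nat.choose 11 c : ℂ)) *
   (R a z * R b z * R c z - R a z * R b (z+1) * R c (z-1) - R a (z+1) * R b (z-1) * R c z
     + R a (z+1) * R b (z+1) * R c (z-2) + R a (z+2) * R b (z-1) * R c (z-1) - R a (z+2) * R b z * R c (z-2))

theorem T_eq (z : ℂ) (a b c : ℕ) : T z ![a,b,c] = U z a b c := by
  unfold T U R
  rw [Nat.multinomial_univ_three, Fin.prod_univ_three, Matrix.det_fin_three]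
  simp only [Matrix.of_apply, Matrix.cons_val_zero, Matrix.cons_val_one, Matrix.cons_val_two,
    Matrix.head_cons, Matrix.tail_cons, Matrix.cons_val, Fin.val_zero, Fin.val_one, Fin.val_two, Nat.cast_zero, Nat.cast_one,
    Nat.cast_ofNat, Complex.ofReal_natCast]
  have e1 : z + 0 - 0 = z := by ring
  have e2 : z + 1 - 1 = z := by ring
  have e3 : z + 2 - 2 = z := by ring
  have e4 : z + 1 - 0 = z + 1 := by ring
  have e5 : z + 2 - 0 = z + 2 := by ring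
  have e6 : z + 0 - 1 = z - 1 := by ring
  have e7 : z + 2 - 1 = z + 1 := by ring
  have e8 : z + 0 - 2 = z - 2 := by ring
  have e9 : z + 1 - 2 = z - 1 := by ring
  simp only [e1, e2, e3, e4, e5, e6, e7, e8, e9]

theorem R0 (w : ℂ) : R 0 w = 1 := by simp [R]

theorem R1 (w : ℂ) : R 1 w = w := by
  simp [R, ascPochhammer_succ_eval]

theorem R2 (w : ℂ) : R 2 w = R 1 w * (w + 1) := by
  unfold R; rw [ascPochhammer_succ_eval]; norm_num

theorem R3 (w : ℂ) : R 3 w = R 2 w * (w + 2) := by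
  unfold R; rw [ascPochhammer_succ_eval]; norm_num

theorem R4 (w : ℂ) : R 4 w = R 3 w * (w + 3) := by
  unfold R; rw [ascPochhammer_succ_eval]; norm_num

theorem R5 (w : ℂ) : R 5 w = R 4 w * (w + 4) := by
  unfold R; rw [ascPochhammer_succ_eval]; norm_num

theorem R6 (w : ℂ) : R 6 w = R 5 w * (w + 5) := by
  unfold R; rw [ascPochhammer_succ_eval]; norm_num

theorem R7 (w : ℂ) : R 7 w = R 6 w * (w + 6) := by
  unfold R; rw [ascPochhammer_succ_eval]; norm_num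

theorem R8 (w : ℂ) : R 8 w = R 7 w * (w + 7) := by
  unfold R; rw [ascPochhammer_succ_eval]; norm_num

theorem R9 (w : ℂ) : R 9 w = R 8 w * (w + 8) := by
  unfold R; rw [ascPochhammer_succ_eval]; norm_num

theorem R10 (w : ℂ) : R 10 w = R 9 w * (w + 9) := by
  unfold R; rw [ascPochhammer_succ_eval]; norm_num

theorem R11 (w : ℂ) : R 11 w = R 10 w * (w + 10) := by
  unfold R; rw [ascPochhammer_succ_eval]; norm_num


theorem sum_eq (g : (Fin 3 → ℕ) → ℂ) : ∑ k ∈ Finset.Nat.antidiagonalTuple 3 11, g k = ([![0,0,11], ![0,1,10], ![0,2,9], ![0,3,8], ![0,4,7], ![0,5,6], ![0,6,5], ![0,7,4], ![0,8,3], ![0,9,2], ![0,10,1], ![0,11,0], ![1,0,10], ![1,1,9], ![1,2,8], ![1,3,7], ![1,4,6], ![1,5,5], ![1,6,4], ![1,7,3], ![1,8,2], ![1,9,1], ![1,10,0], ![2,0,9], ![2,1,8], ![2,2,7], ![2,3,6], ![2,4,5], ![2,5,4], ![2,6,3], ![2,7,2], ![2,8,1], ![2,9,0], ![3,0,8], ![3,1,7], ![3,2,6], ![3,3,5], ![3,4,4], ![3,5,3],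 ![3,6,2], ![3,7,1], ![3,8,0], ![4,0,7], ![4,1,6], ![4,2,5], ![4,3,4], ![4,4,3], ![4,5,2], ![4,6,1], ![4,7,0], ![5,0,6], ![5,1,5], ![5,2,4], ![5,3,3], ![5,4,2], ![5,5,1], ![5,6,0], ![6,0,5], ![6,1,4], ![6,2,3], ![6,3,2], ![6,4,1], ![6,5,0], ![7,0,4], ![7,1,3], ![7,2,2], ![7,3,1], ![7,4,0], ![8,0,3], ![8,1,2], ![8,2,1], ![8,3,0], ![9,0,2], ![9,1,1], ![9,2,0], ![10,0,1], ![10,1,0], ![11,0,0]].map g).sum := by
  rfl

end Pool.Agent.MP7697eaLib
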