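import Pool.Agent.MP7697eaLib.Basic
set_option autoImplicit false
namespace Pool.Agent.MP7697eaLib

theorem U_0_0_11 (z : ℂ) : U z 0 0 11 = 0 := by
  simp only [U, R11, R10, R9, R8, R7, R6, R5, R4, R3, R2, R1, R0]
  norm_num [Nat.factorial, Nat.choose] <;> ring
theorem U_0_1_10 (z : ℂ) : U z 0 1 10 = (603741600 : ℂ) * z + (1565415720 : ℂ) * z ^ 2 + (1573082280 : ℂ) * z ^ 3 + (810858510 : ℂ) * z ^ 4 + (234788400 : ℂ) * z ^ 5 + (38572380 : ℂ) * z ^ 6 + (3354120 : ℂ) * z ^ 7 + (119790 : ℂ) * z ^ 8 := by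
  simp only [U, R11, R10, R9, R8, R7, R6, R5, R4, R3, R2, R1, R0]
  norm_num [Nat.factorial, Nat.choose] <;> ring
theorem U_0_2_9 (z : ℂ) : U z 0 2 9 = (2156220000 : ℂ) * z + (20376279000 : ℂ) * z ^ 2 + (41842647000 : ℂ) * z ^ 3 + (36245459250 : ℂ) * z ^ 4 + (15932070000 : ℂ) * z ^ 5 + (3731458500 : ℂ) * z ^ 6 + (443223000 : ℂ) * z ^ 7 + (20963250 : ℂ) * z ^ 8 := by
  simp only [U, R11, R10, R9, R8, R7, R6, R5, R4, R3, R2, R1, R0]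
  norm_num [Nat.factorial, Nat.choose] <;> ring
theorem U_0_3_8 (z : ℂ) : U z 0 3 8 = (25874640000 : ℂ) * z + (149641668000 : ℂ) * z ^ 2 + (319983048000 : ℂ) * z ^ 3 + (335831265000 : ℂ) * z ^ 4 + (188669250000 : ℂ) * z ^ 5 + (57355452000 : ℂ) * z ^ 6 + (8840502000 : ℂ) * z ^ 7 + (539055000 : ℂ) * z ^ 8 := by
  simp only [U, R11, R10, R9, R8, R7, R6, R5, R4, R3, R2, R1, R0]
  norm_num [Nat.factorial, Nat.choose] <;> ring
theorem U_0_4_7 (z : ℂ) : U z 0 4 7 = (144897984000 : ℂ) * z + (664115760000 : ℂ) * z ^ 2 + (1255782528000 : ℂ) * z ^ 3 + (1264838652000 : ℂ) * z ^ 4 + (730527336000 : ℂ) * z ^ 5 + (241496640000 : ℂ) * z ^ 6 + (42261912000 : ℂ) * z ^ 7 + (3018708000 : ℂ) * z ^ 8 := by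
  simp only [U, R11, R10, R9, R8, R7, R6, R5, R4, R3, R2, R1, R0]
  norm_num [Nat.factorial, Nat.choose] <;> ring
theorem U_0_5_6 (z : ℂ) : U z 0 5 6 = (426000072960 : ℂ) * z + (1668500285760 : ℂ) * z ^ 2 + (2674333791360 : ℂ) * z ^ 3 + (2274958722960 : ℂ) * z ^ 4 + (1112333523840 : ℂ) * z ^ 5 + (313583387040 : ℂ) * z ^ 6 + (47333341440 : ℂ) * z ^ 7 + (2958333840 : ℂ) * z ^ 8 := by
  simp only [U, R11, R10, R9, R8, R7, R6, R5, R4, R3, R2, R1, R0]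
  norm_num [Nat.factorial, Nat.choose] <;> ring
theorem U_0_6_5 (z : ℂ) : U z 0 6 5 = (710000121600 : ℂ) * z + (2402167078080 : ℂ) * z ^ 2 + (3100333864320 : ℂ) * z ^ 3 + (1866708653040 : ℂ) * z ^ 4 + (473333414400 : ℂ) * z ^ 5 + (-5916667680 : ℂ) * z ^ 6 + (-23666670720 : ℂ) * z ^ 7 + (-2958333840 : ℂ) * z ^ 8 := by
  simp only [U, R11, R10, R9, R8, R7, R6, R5, R4, R3, R2, R1, R0]
  norm_num [Nat.factorial, Nat.choose] <;> ring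
theorem U_0_7_4 (z : ℂ) : U z 0 7 4 = (724489920000 : ℂ) * z + (2016496944000 : ℂ) * z ^ 2 + (1823299632000 : ℂ) * z ^ 3 + (365263668000 : ℂ) * z ^ 4 + (-332057880000 : ℂ) * z ^ 5 + (-205272144000 : ℂ) * z ^ 6 + (-42261912000 : ℂ) * z ^ 7 + (-3018708000 : ℂ) * z ^ 8 := by
  simp only [U, R11, R10, R9, R8, R7, R6, R5, R4, R3, R2, R1, R0]
  norm_num [Nat.factorial, Nat.choose] <;> ring
theorem U_0_8_3 (z : ℂ) : U z 0 8 3 = (543367440000 : ℂ) * z + (943130628000 : ℂ) * z ^ 2 + (274702428000 : ℂ) * z ^ 3 + (-320737725000 : ℂ) * z ^ 4 + (-264136950000 : ℂ) * z ^ 5 + (-78486408000 : ℂ) * z ^ 6 + (-10565478000 : ℂ) * z ^ 7 + (-539055000 : ℂ) * z ^ 8 := by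
  simp only [U, R11, R10, R9, R8, R7, R6, R5, R4, R3, R2, R1, R0]
  norm_num [Nat.factorial, Nat.choose] <;> ring
theorem U_0_9_2 (z : ℂ) : U z 0 9 2 = (120748320000 : ℂ) + (207428364000 : ℂ) * z + (40668705000 : ℂ) * z ^ 2 + (-113117697000 : ℂ) * z ^ 3 + (-94942559250 : ℂ) * z ^ 4 + (-33373494000 : ℂ) * z ^ 5 + (-6079342500 : ℂ) * z ^ 6 + (-563013000 : ℂ) * z ^ 7 + (-20963250 : ℂ) * z ^ 8 := by
  simp only [U, R11, R10, R9, R8, R7, R6, R5, R4, R3, R2, R1, R0]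
  norm_num [Nat.factorial, Nat.choose] <;> ring
theorem U_0_10_1 (z : ℂ) : U z 0 10 1 = (-4829932800 : ℂ) + (-13127067360 : ℂ) * z + (-14150073960 : ℂ) * z ^ 2 + (-8059950360 : ℂ) * z ^ 3 + (-2689165710 : ℂ) * z ^ 4 + (-543367440 : ℂ) * z ^ 5 + (-65405340 : ℂ) * z ^ 6 + (-4312440 : ℂ) * z ^ 7 + (-119790 : ℂ) * z ^ 8 := by
  simp only [U, R11, R10, R9, R8, R7, R6, R5, R4, R3, R2, R1, R0]
  norm_num [Nat.factorial, Nat.choose] <;> ring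
theorem U_0_11_0 (z : ℂ) : U z 0 11 0 = 0 := by
  simp only [U, R11, R10, R9, R8, R7, R6, R5, R4, R3, R2, R1, R0]
  norm_num [Nat.factorial, Nat.choose] <;> ring
theorem U_1_0_10 (z : ℂ) : U z 1 0 10 = (-603741600 : ℂ) * z + (-1565415720 : ℂ) * z ^ 2 + (-1573082280 : ℂ) * z ^ 3 + (-810858510 : ℂ) * z ^ 4 + (-234788400 : ℂ) * z ^ 5 + (-38572380 : ℂ) * z ^ 6 + (-3354120 : ℂ) * z ^ 7 + (-119790 : ℂ) * z ^ 8 := by
  simp only [U, R11, R10, R9, R8, R7, R6, R5, R4, R3, R2, R1, R0]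
  norm_num [Nat.factorial, Nat.choose] <;> ring
theorem U_1_1_9 (z : ℂ) : U z 1 1 9 = (37949472000 : ℂ) * z + (92976206400 : ℂ) * z ^ 2 + (85597142400 : ℂ) * z ^ 3 + (38740086000 : ℂ) * z ^ 4 + (9223830000 : ℂ) * z ^ 5 + (1106859600 : ℂ) * z ^ 6 + (52707600 : ℂ) * z ^ 7 := by
  simp only [U, R11, R10, R9, R8, R7, R6, R5, R4, R3, R2, R1, R0]
  norm_num [Nat.factorial, Nat.choose] <;> ring
theorem U_1_2_8 (z : ℂ) : U z 1 2 8 = (23718420000 : ℂ) * z + (445510989000 : ℂ) * z ^ 2 + (1187106921000 : ℂ) * z ^ 3 + (1319238285750 : ℂ) * z ^ 4 + (747130230000 : ℂ) * z ^ 5 + (225522643500 : ℂ) * z ^ 6 + (34391709000 : ℂ) * z ^ 7 + (2075361750 : ℂ) * z ^ 8 := by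
  simp only [U, R11, R10, R9, R8, R7, R6, R5, R4, R3, R2, R1, R0]
  norm_num [Nat.factorial, Nat.choose] <;> ring
theorem U_1_3_7 (z : ℂ) : U z 1 3 7 = (227696832000 : ℂ) * z + (1954397808000 : ℂ) * z ^ 2 + (5578572384000 : ℂ) * z ^ 3 + (7670537028000 : ℂ) * z ^ 4 + (5678189748000 : ℂ) * z ^ 5 + (2291199372000 : ℂ) * z ^ 6 + (469624716000 : ℂ) * z ^ 7 + (37949472000 : ℂ) * z ^ 8 := by
  simp only [U, R11, R10, R9, R8, R7, R6, R5, R4, R3, R2, R1, R0]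
  norm_num [Nat.factorial, Nat.choose] <;> ring
theorem U_1_4_6 (z : ℂ) : U z 1 4 6 = (1115714476800 : ℂ) * z + (6787263067200 : ℂ) * z ^ 2 + (16363812326400 : ℂ) * z ^ 3 + (20570985666000 : ℂ) * z ^ 4 + (14690240611200 : ℂ) * z ^ 5 + (5996965312800 : ℂ) * z ^ 6 + (1301666889600 : ℂ) * z ^ 7 + (116220258000 : ℂ) * z ^ 8 := by
  simp only [U, R11, R10, R9, R8, R7, R6, R5, R4, R3, R2, R1, R0]
  norm_num [Nat.factorial, Nat.choose] <;> ring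
theorem U_1_5_5 (z : ℂ) : U z 1 5 5 = (3124000535040 : ℂ) * z + (15099335919360 : ℂ) * z ^ 2 + (28897004949120 : ℂ) * z ^ 3 + (27985838126400 : ℂ) * z ^ 4 + (14448502474560 : ℂ) * z ^ 5 + (3774833979840 : ℂ) * z ^ 6 + (390500066880 : ℂ) * z ^ 7 := by
  simp only [U, R11, R10, R9, R8, R7, R6, R5, R4, R3, R2, R1, R0]
  norm_num [Nat.factorial, Nat.choose] <;> ring
theorem U_1_6_4 (z : ℂ) : U z 1 6 4 = (5578572384000 : ℂ) * z + (21105598852800 : ℂ) * z ^ 2 + (29008576396800 : ℂ) * z ^ 3 + (15689734830000 : ℂ) * z ^ 4 + (-3207679120800 : ℂ) * z ^ 6 + (-1115714476800 : ℂ) * z ^ 7 + (-116220258000 : ℂ) * z ^ 8 := by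
  simp only [U, R11, R10, R9, R8, R7, R6, R5, R4, R3, R2, R1, R0]
  norm_num [Nat.factorial, Nat.choose] <;> ring
theorem U_1_7_3 (z : ℂ) : U z 1 7 3 = (7969389120000 : ℂ) * z + (18766013904000 : ℂ) * z ^ 2 + (11688437376000 : ℂ) * z ^ 3 + (-3685842468000 : ℂ) * z ^ 4 + (-7139244420000 : ℂ) * z ^ 5 + (-3088138284000 : ℂ) * z ^ 6 + (-564498396000 : ℂ) * z ^ 7 + (-37949472000 : ℂ) * z ^ 8 := by
  simp only [U, R11, R10, R9, R8, R7, R6, R5, R4, R3, R2, R1, R0]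
  norm_num [Nat.factorial, Nat.choose] <;> ring
theorem U_1_8_2 (z : ℂ) : U z 1 8 2 = (3984694560000 : ℂ) + (7841309652000 : ℂ) * z + (2786519043000 : ℂ) * z ^ 2 + (-3926584431000 : ℂ) * z ^ 3 + (-4363102185750 : ℂ) * z ^ 4 + (-1876127022000 : ℂ) * z ^ 5 + (-413688775500 : ℂ) * z ^ 6 + (-46250919000 : ℂ) * z ^ 7 + (-2075361750 : ℂ) * z ^ 8 := by
  simp only [U, R11, R10, R9, R8, R7, R6, R5, R4, R3, R2, R1, R0]
  norm_num [Nat.factorial, Nat.choose] <;> ring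
theorem U_1_9_1 (z : ℂ) : U z 1 9 1 = (-531292608000 : ℂ) + (-1377565833600 : ℂ) * z + (-1384312406400 : ℂ) * z ^ 2 + (-713555488800 : ℂ) * z ^ 3 + (-206613792000 : ℂ) * z ^ 4 + (-33943694400 : ℂ) * z ^ 5 + (-2951625600 : ℂ) * z ^ 6 + (-105415200 : ℂ) * z ^ 7 := by
  simp only [U, R11, R10, R9, R8, R7, R6, R5, R4, R3, R2, R1, R0]
  norm_num [Nat.factorial, Nat.choose] <;> ring
theorem U_1_10_0 (z : ℂ) : U z 1 10 0 = (4829932800 : ℂ) + (13127067360 : ℂ) * z + (14150073960 : ℂ) * z ^ 2 + (8059950360 : ℂ) * z ^ 3 + (2689165710 : ℂ) * z ^ 4 + (543367440 : ℂ) * z ^ 5 + (65405340 : ℂ) * z ^ 6 + (4312440 : ℂ) * z ^ 7 + (119790 : ℂ) * z ^ 8 := by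
  simp only [U, R11, R10, R9, R8, R7, R6, R5, R4, R3, R2, R1, R0]
  norm_num [Nat.factorial, Nat.choose] <;> ring
theorem U_2_0_9 (z : ℂ) : U z 2 0 9 = (-19405980000 : ℂ) * z + (-62638191000 : ℂ) * z ^ 2 + (-80750439000 : ℂ) * z ^ 3 + (-53854589250 : ℂ) * z ^ 4 + (-20124720000 : ℂ) * z ^ 5 + (-4234576500 : ℂ) * z ^ 6 + (-467181000 : ℂ) * z ^ 7 + (-20963250 : ℂ) * z ^ 8 := by
  simp only [U, R11, R10, R9, R8, R7, R6, R5, R4, R3, R2, R1, R0]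
  norm_num [Nat.factorial, Nat.choose] <;> ring
theorem U_2_1_8 (z : ℂ) : U z 2 1 8 = (735271020000 : ℂ) * z + (1856756979000 : ℂ) * z ^ 2 + (1535767695000 : ℂ) * z ^ 3 + (285708134250 : ℂ) * z ^ 4 + (-249043410000 : ℂ) * z ^ 5 + (-148042471500 : ℂ) * z ^ 6 + (-29648025000 : ℂ) * z ^ 7 + (-2075361750 : ℂ) * z ^ 8 := by
  simp only [U, R11, R10, R9, R8, R7, R6, R5, R4, R3, R2, R1, R0]
  norm_num [Nat.factorial, Nat.choose] <;> ring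
theorem U_2_2_7 (z : ℂ) : U z 2 2 7 = (379494720000 : ℂ) * z + (5534298000000 : ℂ) * z ^ 2 + (13282315200000 : ℂ) * z ^ 3 + (13005600300000 : ℂ) * z ^ 4 + (6143070780000 : ℂ) * z ^ 5 + (1383574500000 : ℂ) * z ^ 6 + (118592100000 : ℂ) * z ^ 7 := by
  simp only [U, R11, R10, R9, R8, R7, R6, R5, R4, R3, R2, R1, R0]
  norm_num [Nat.factorial, Nat.choose] <;> ring
theorem U_2_3_6 (z : ℂ) : U z 2 3 6 = (2789286192000 : ℂ) * z + (17665479216000 : ℂ) * z ^ 2 + (42536614428000 : ℂ) * z ^ 3 + (52066675584000 : ℂ) * z ^ 4 + (35563398948000 : ℂ) * z ^ 5 + (13713990444000 : ℂ) * z ^ 6 + (2789286192000 : ℂ) * z ^ 7 + (232440516000 : ℂ) * z ^ 8 := by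
  simp only [U, R11, R10, R9, R8, R7, R6, R5, R4, R3, R2, R1, R0]
  norm_num [Nat.factorial, Nat.choose] <;> ring
theorem U_2_4_5 (z : ℂ) : U z 2 4 5 = (11157144768000 : ℂ) * z + (49742270424000 : ℂ) * z ^ 2 + (93441087432000 : ℂ) * z ^ 3 + (96114153366000 : ℂ) * z ^ 4 + (58575010032000 : ℂ) * z ^ 5 + (21152086956000 : ℂ) * z ^ 6 + (4183929288000 : ℂ) * z ^ 7 + (348660774000 : ℂ) * z ^ 8 := by
  simp only [U, R11, R10, R9, R8, R7, R6, R5, R4, R3, R2, R1, R0]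
  norm_num [Nat.factorial, Nat.choose] <;> ring
theorem U_2_5_4 (z : ℂ) : U z 2 5 4 = (27892861920000 : ℂ) * z + (97160135688000 : ℂ) * z ^ 2 + (128307164832000 : ℂ) * z ^ 3 + (75891828474000 : ℂ) * z ^ 4 + (13946430960000 : ℂ) * z ^ 5 + (-5346131868000 : ℂ) * z ^ 6 + (-2789286192000 : ℂ) * z ^ 7 + (-348660774000 : ℂ) * z ^ 8 := by
  simp only [U, R11, R10, R9, R8, R7, R6, R5, R4, R3, R2, R1, R0]
  norm_num [Nat.factorial, Nat.choose] <;> ring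
theorem U_2_6_3 (z : ℂ) : U z 2 6 3 = (55785723840000 : ℂ) * z + (127377402768000 : ℂ) * z ^ 2 + (76705370280000 : ℂ) * z ^ 3 + (-24173813664000 : ℂ) * z ^ 4 + (-45325900620000 : ℂ) * z ^ 5 + (-19292562828000 : ℂ) * z ^ 6 + (-3486607740000 : ℂ) * z ^ 7 + (-232440516000 : ℂ) * z ^ 8 := by
  simp only [U, R11, R10, R9, R8, R7, R6, R5, R4, R3, R2, R1, R0]
  norm_num [Nat.factorial, Nat.choose] <;> ring
theorem U_2_7_2 (z : ℂ) : U z 2 7 2 = (39846945600000 : ℂ) + (86240175120000 : ℂ) * z + (35419507200000 : ℂ) * z ^ 2 + (-45657958500000 : ℂ) * z ^ 3 + (-51745686300000 : ℂ) * z ^ 4 + (-20421559620000 : ℂ) * z ^ 5 + (-3597293700000 : ℂ) * z ^ 6 + (-237184200000 : ℂ) * z ^ 7 := by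
  simp only [U, R11, R10, R9, R8, R7, R6, R5, R4, R3, R2, R1, R0]
  norm_num [Nat.factorial, Nat.choose] <;> ring
theorem U_2_8_1 (z : ℂ) : U z 2 8 1 = (-7969389120000 : ℂ) + (-24434716284000 : ℂ) * z + (-28509936147000 : ℂ) * z ^ 2 + (-15548610231000 : ℂ) * z ^ 3 + (-3578615444250 : ℂ) * z ^ 4 + (99617364000 : ℂ) * z ^ 5 + (208919749500 : ℂ) * z ^ 6 + (36763551000 : ℂ) * z ^ 7 + (2075361750 : ℂ) * z ^ 8 := by
  simp only [U, R11, R10, R9, R8, R7, R6, R5, R4, R3, R2, R1, R0]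
  norm_num [Nat.factorial, Nat.choose] <;> ring
theorem U_2_9_0 (z : ℂ) : U z 2 9 0 = (120748320000 : ℂ) + (418737924000 : ℂ) * z + (588564207000 : ℂ) * z ^ 2 + (437461101000 : ℂ) * z ^ 3 + (188857919250 : ℂ) * z ^ 4 + (48802446000 : ℂ) * z ^ 5 + (7420990500 : ℂ) * z ^ 6 + (610929000 : ℂ) * z ^ 7 + (20963250 : ℂ) * z ^ 8 := by
  simp only [U, R11, R10, R9, R8, R7, R6, R5, R4, R3, R2, R1, R0]
  norm_num [Nat.factorial, Nat.choose] <;> ring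
theorem U_3_0_8 (z : ℂ) : U z 3 0 8 = (-232871760000 : ℂ) * z + (-777532932000 : ℂ) * z ^ 2 + (-1062585216000 : ℂ) * z ^ 3 + (-773543925000 : ℂ) * z ^ 4 + (-324511110000 : ℂ) * z ^ 5 + (-78486408000 : ℂ) * z ^ 6 + (-10134234000 : ℂ) * z ^ 7 + (-539055000 : ℂ) * z ^ 8 := by
  simp only [U, R11, R10, R9, R8, R7, R6, R5, R4, R3, R2, R1, R0]
  norm_num [Nat.factorial, Nat.choose] <;> ring
theorem U_3_1_7 (z : ℂ) : U z 3 1 7 = (5920117632000 : ℂ) * z + (14382849888000 : ℂ) * z ^ 2 + (10625852160000 : ℂ) * z ^ 3 + (-199234728000 : ℂ) * z ^ 4 + (-4117517712000 : ℂ) * z ^ 5 + (-2191582008000 : ℂ) * z ^ 6 + (-474368400000 : ℂ) * z ^ 7 + (-37949472000 : ℂ) * z ^ 8 := by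
  simp only [U, R11, R10, R9, R8, R7, R6, R5, R4, R3, R2, R1, R0]
  norm_num [Nat.factorial, Nat.choose] <;> ring
theorem U_3_2_6 (z : ℂ) : U z 3 2 6 = (2789286192000 : ℂ) * z + (31611910176000 : ℂ) * z ^ 2 + (66710428092000 : ℂ) * z ^ 3 + (53693759196000 : ℂ) * z ^ 4 + (15805955088000 : ℂ) * z ^ 5 + (-1394643096000 : ℂ) * z ^ 6 + (-1627083612000 : ℂ) * z ^ 7 + (-232440516000 : ℂ) * z ^ 8 := by
  simp only [U, R11, R10, R9, R8, R7, R6, R5, R4, R3, R2, R1, R0]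
  norm_num [Nat.factorial, Nat.choose] <;> ring
theorem U_3_3_5 (z : ℂ) : U z 3 3 5 = (16735717152000 : ℂ) * z + (80889299568000 : ℂ) * z ^ 2 + (154805383656000 : ℂ) * z ^ 3 + (149924132820000 : ℂ) * z ^ 4 + (77402691828000 : ℂ) * z ^ 5 + (20222324892000 : ℂ) * z ^ 6 + (2091964644000 : ℂ) * z ^ 7 := by
  simp only [U, R11, R10, R9, R8, R7, R6, R5, R4, R3, R2, R1, R0]
  norm_num [Nat.factorial, Nat.choose] <;> ring
theorem U_3_4_4 (z : ℂ) : U z 3 4 4 = (59770418400000 : ℂ) * z + (199234728000000 : ℂ) * z ^ 2 + (254024278200000 : ℂ) * z ^ 3 + (154406914200000 : ℂ) * z ^ 4 + (44827813800000 : ℂ) * z ^ 5 + (4980868200000 : ℂ) * z ^ 6 := by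
  simp only [U, R11, R10, R9, R8, R7, R6, R5, R4, R3, R2, R1, R0]
  norm_num [Nat.factorial, Nat.choose] <;> ring
theorem U_3_5_3 (z : ℂ) : U z 3 5 3 = (167357171520000 : ℂ) * z + (357028632576000 : ℂ) * z ^ 2 + (192460747248000 : ℂ) * z ^ 3 + (-69732154800000 : ℂ) * z ^ 4 + (-104598232200000 : ℂ) * z ^ 5 + (-36260720496000 : ℂ) * z ^ 6 + (-4183929288000 : ℂ) * z ^ 7 := by
  simp only [U, R11, R10, R9, R8, R7, R6, R5, R4, R3, R2, R1, R0]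
  norm_num [Nat.factorial, Nat.choose] <;> ring
theorem U_3_6_2 (z : ℂ) : U z 3 6 2 = (167357171520000 : ℂ) + (354239346384000 : ℂ) * z + (138534547536000 : ℂ) * z ^ 2 + (-194087830860000 : ℂ) * z ^ 3 + (-214077715236000 : ℂ) * z ^ 4 + (-77635132344000 : ℂ) * z ^ 5 + (-8367858576000 : ℂ) * z ^ 6 + (1162202580000 : ℂ) * z ^ 7 + (232440516000 : ℂ) * z ^ 8 := by
  simp only [U, R11, R10, R9, R8, R7, R6, R5, R4, R3, R2, R1, R0]
  norm_num [Nat.factorial, Nat.choose] <;> ring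
theorem U_3_7_1 (z : ℂ) : U z 3 7 1 = (-47816334720000 : ℂ) + (-150166060704000 : ℂ) * z + (-182669783472000 : ℂ) * z ^ 2 + (-104863878504000 : ℂ) * z ^ 3 + (-23542903692000 : ℂ) * z ^ 4 + (3420196164000 : ℂ) * z ^ 5 + (2955315132000 : ℂ) * z ^ 6 + (573985764000 : ℂ) * z ^ 7 + (37949472000 : ℂ) * z ^ 8 := by
  simp only [U, R11, R10, R9, R8, R7, R6, R5, R4, R3, R2, R1, R0]
  norm_num [Nat.factorial, Nat.choose] <;> ring
theorem U_3_8_0 (z : ℂ) : U z 3 8 0 = (1086734880000 : ℂ) + (3982107096000 : ℂ) * z + (6072346764000 : ℂ) * z ^ 2 + (5036714298000 : ℂ) * z ^ 3 + (2486660715000 : ℂ) * z ^ 4 + (748639584000 : ℂ) * z ^ 5 + (134332506000 : ℂ) * z ^ 6 + (13152942000 : ℂ) * z ^ 7 + (539055000 : ℂ) * z ^ 8 := by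
  simp only [U, R11, R10, R9, R8, R7, R6, R5, R4, R3, R2, R1, R0]
  norm_num [Nat.factorial, Nat.choose] <;> ring
theorem U_4_0_7 (z : ℂ) : U z 4 0 7 = (-1304081856000 : ℂ) * z + (-4238266032000 : ℂ) * z ^ 2 + (-5651021376000 : ℂ) * z ^ 3 + (-4042050012000 : ℂ) * z ^ 4 + (-1684439064000 : ℂ) * z ^ 5 + (-410544288000 : ℂ) * z ^ 6 + (-54336744000 : ℂ) * z ^ 7 + (-3018708000 : ℂ) * z ^ 8 := by
  simp only [U, R11, R10, R9, R8, R7, R6, R5, R4, R3, R2, R1, R0]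
  norm_num [Nat.factorial, Nat.choose] <;> ring
theorem U_4_1_6 (z : ℂ) : U z 4 1 6 = (23430004012800 : ℂ) * z + (51601794552000 : ℂ) * z ^ 2 + (29938338460800 : ℂ) * z ^ 3 + (-9878721930000 : ℂ) * z ^ 4 + (-18316312660800 : ℂ) * z ^ 5 + (-8135418060000 : ℂ) * z ^ 6 + (-1580595508800 : ℂ) * z ^ 7 + (-116220258000 : ℂ) * z ^ 8 := by
  simp only [U, R11, R10, R9, R8, R7, R6, R5, R4, R3, R2, R1, R0]
  norm_num [Nat.factorial, Nat.choose] <;> ring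
theorem U_4_2_5 (z : ℂ) : U z 4 2 5 = (11157144768000 : ℂ) * z + (91581563304000 : ℂ) * z ^ 2 + (157594669848000 : ℂ) * z ^ 3 + (89838259434000 : ℂ) * z ^ 4 + (2789286192000 : ℂ) * z ^ 5 + (-13713990444000 : ℂ) * z ^ 6 + (-4183929288000 : ℂ) * z ^ 7 + (-348660774000 : ℂ) * z ^ 8 := by
  simp only [U, R11, R10, R9, R8, R7, R6, R5, R4, R3, R2, R1, R0]
  norm_num [Nat.factorial, Nat.choose] <;> ring
theorem U_4_3_4 (z : ℂ) : U z 4 3 4 = (59770418400000 : ℂ) * z + (199234728000000 : ℂ) * z ^ 2 + (254024278200000 : ℂ) * z ^ 3 + (154406914200000 : ℂ) * z ^ 4 + (44827813800000 : ℂ) * z ^ 5 + (4980868200000 : ℂ) * z ^ 6 := by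
  simp only [U, R11, R10, R9, R8, R7, R6, R5, R4, R3, R2, R1, R0]
  norm_num [Nat.factorial, Nat.choose] <;> ring
theorem U_4_4_3 (z : ℂ) : U z 4 4 3 = (239081673600000 : ℂ) * z + (438316401600000 : ℂ) * z ^ 2 + (179311255200000 : ℂ) * z ^ 3 + (-69732154800000 : ℂ) * z ^ 4 + (-59770418400000 : ℂ) * z ^ 5 + (-9961736400000 : ℂ) * z ^ 6 := by
  simp only [U, R11, R10, R9, R8, R7, R6, R5, R4, R3, R2, R1, R0]
  norm_num [Nat.factorial, Nat.choose] <;> ring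
theorem U_4_5_2 (z : ℂ) : U z 4 5 2 = (334714343040000 : ℂ) + (624800107008000 : ℂ) * z + (150156573336000 : ℂ) * z ^ 2 + (-372369706632000 : ℂ) * z ^ 3 + (-315305559954000 : ℂ) * z ^ 4 + (-87862515048000 : ℂ) * z ^ 5 + (-2556845676000 : ℂ) * z ^ 6 + (2789286192000 : ℂ) * z ^ 7 + (348660774000 : ℂ) * z ^ 8 := by
  simp only [U, R11, R10, R9, R8, R7, R6, R5, R4, R3, R2, R1, R0]
  norm_num [Nat.factorial, Nat.choose] <;> ring
theorem U_4_6_1 (z : ℂ) : U z 4 6 1 = (-133885737216000 : ℂ) + (-400541497171200 : ℂ) * z + (-462556626840000 : ℂ) * z ^ 2 + (-249920042803200 : ℂ) * z ^ 3 + (-48231407070000 : ℂ) * z ^ 4 + (12830716483200 : ℂ) * z ^ 5 + (8600299092000 : ℂ) * z ^ 6 + (1673571715200 : ℂ) * z ^ 7 + (116220258000 : ℂ) * z ^ 8 := by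
  simp only [U, R11, R10, R9, R8, R7, R6, R5, R4, R3, R2, R1, R0]
  norm_num [Nat.factorial, Nat.choose] <;> ring
theorem U_4_7_0 (z : ℂ) : U z 4 7 0 = (4346939520000 : ℂ) + (15721431264000 : ℂ) * z + (23920242192000 : ℂ) * z ^ 2 + (20098557864000 : ℂ) * z ^ 3 + (10230401412000 : ℂ) * z ^ 4 + (3236054976000 : ℂ) * z ^ 5 + (621853848000 : ℂ) * z ^ 6 + (66411576000 : ℂ) * z ^ 7 + (3018708000 : ℂ) * z ^ 8 := by
  simp only [U, R11, R10, R9, R8, R7, R6, R5, R4, R3, R2, R1, R0]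
  norm_num [Nat.factorial, Nat.choose] <;> ring
theorem U_5_0_6 (z : ℂ) : U z 5 0 6 = (-3834000656640 : ℂ) * z + (-11608501988160 : ℂ) * z ^ 2 + (-14129002419840 : ℂ) * z ^ 3 + (-9019959878160 : ℂ) * z ^ 4 + (-3266000559360 : ℂ) * z ^ 5 + (-668583447840 : ℂ) * z ^ 6 + (-71000012160 : ℂ) * z ^ 7 + (-2958333840 : ℂ) * z ^ 8 := by
  simp only [U, R11, R10, R9, R8, R7, R6, R5, R4, R3, R2, R1, R0]
  norm_num [Nat.factorial, Nat.choose] <;> ring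
theorem U_5_1_5 (z : ℂ) : U z 5 1 5 = (49984008560640 : ℂ) * z + (91637349027840 : ℂ) * z ^ 2 + (28116004815360 : ℂ) * z ^ 3 + (-36446672908800 : ℂ) * z ^ 4 + (-30459005216640 : ℂ) * z ^ 5 + (-8330668093440 : ℂ) * z ^ 6 + (-781000133760 : ℂ) * z ^ 7 := by
  simp only [U, R11, R10, R9, R8, R7, R6, R5, R4, R3, R2, R1, R0]
  norm_num [Nat.factorial, Nat.choose] <;> ring
theorem U_5_2_4 (z : ℂ) : U z 5 2 4 = (27892861920000 : ℂ) * z + (138999428568000 : ℂ) * z ^ 2 + (158989312944000 : ℂ) * z ^ 3 + (33355214046000 : ℂ) * z ^ 4 + (-20919646440000 : ℂ) * z ^ 5 + (-5346131868000 : ℂ) * z ^ 6 + (1394643096000 : ℂ) * z ^ 7 + (348660774000 : ℂ) * z ^ 8 := by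
  simp only [U, R11, R10, R9, R8, R7, R6, R5, R4, R3, R2, R1, R0]
  norm_num [Nat.factorial, Nat.choose] <;> ring
theorem U_5_3_3 (z : ℂ) : U z 5 3 3 = (167357171520000 : ℂ) * z + (231510753936000 : ℂ) * z ^ 2 + (50207151456000 : ℂ) * z ^ 3 + (3486607740000 : ℂ) * z ^ 4 + (31379469660000 : ℂ) * z ^ 5 + (16038395604000 : ℂ) * z ^ 6 + (2091964644000 : ℂ) * z ^ 7 := by
  simp only [U, R11, R10, R9, R8, R7, R6, R5, R4, R3, R2, R1, R0]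
  norm_num [Nat.factorial, Nat.choose] <;> ring
theorem U_5_4_2 (z : ℂ) : U z 5 4 2 = (334714343040000 : ℂ) + (457442935488000 : ℂ) * z + (-81354180600000 : ℂ) * z ^ 2 + (-305426838024000 : ℂ) * z ^ 3 + (-91465343046000 : ℂ) * z ^ 4 + (16735717152000 : ℂ) * z ^ 5 + (5811012900000 : ℂ) * z ^ 6 + (-1394643096000 : ℂ) * z ^ 7 + (-348660774000 : ℂ) * z ^ 8 := by
  simp only [U, R11, R10, R9, R8, R7, R6, R5, R4, R3, R2, R1, R0]
  norm_num [Nat.factorial, Nat.choose] <;> ring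
theorem U_5_5_1 (z : ℂ) : U z 5 5 1 = (-187440032102400 : ℂ) + (-490468084001280 : ℂ) * z + (-465996746476800 : ℂ) * z ^ 2 + (-181973031166080 : ℂ) * z ^ 3 + (-7159167892800 : ℂ) * z ^ 4 + (16010502742080 : ℂ) * z ^ 5 + (4555834113600 : ℂ) * z ^ 6 + (390500066880 : ℂ) * z ^ 7 := by
  simp only [U, R11, R10, R9, R8, R7, R6, R5, R4, R3, R2, R1, R0]
  norm_num [Nat.factorial, Nat.choose] <;> ring
theorem U_5_6_0 (z : ℂ) : U z 5 6 0 = (8520001459200 : ℂ) + (28684004912640 : ℂ) * z + (40245173559360 : ℂ) * z ^ 2 + (30991505307840 : ℂ) * z ^ 3 + (14404127466960 : ℂ) * z ^ 4 + (4153500711360 : ℂ) * z ^ 5 + (727750124640 : ℂ) * z ^ 6 + (71000012160 : ℂ) * z ^ 7 + (2958333840 : ℂ) * z ^ 8 := by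
  simp only [U, R11, R10, R9, R8, R7, R6, R5, R4, R3, R2, R1, R0]
  norm_num [Nat.factorial, Nat.choose] <;> ring
theorem U_6_0_5 (z : ℂ) : U z 6 0 5 = (-6390001094400 : ℂ) * z + (-17075502924480 : ℂ) * z ^ 2 + (-17300336296320 : ℂ) * z ^ 3 + (-8375043101040 : ℂ) * z ^ 4 + (-1893333657600 : ℂ) * z ^ 5 + (-112416685920 : ℂ) * z ^ 6 + (23666670720 : ℂ) * z ^ 7 + (2958333840 : ℂ) * z ^ 8 := by
  simp only [U, R11, R10, R9, R8, R7, R6, R5, R4, R3, R2, R1, R0]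
  norm_num [Nat.factorial, Nat.choose] <;> ring
theorem U_6_1_4 (z : ℂ) : U z 6 1 4 = (61364296224000 : ℂ) * z + (75961560628800 : ℂ) * z ^ 2 + (-17479526803200 : ℂ) * z ^ 3 + (-44977239846000 : ℂ) * z ^ 4 + (-11622025800000 : ℂ) * z ^ 5 + (2370893263200 : ℂ) * z ^ 6 + (1208690683200 : ℂ) * z ^ 7 + (116220258000 : ℂ) * z ^ 8 := by
  simp only [U, R11, R10, R9, R8, R7, R6, R5, R4, R3, R2, R1, R0]
  norm_num [Nat.factorial, Nat.choose] <;> ring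
theorem U_6_2_3 (z : ℂ) : U z 6 2 3 = (55785723840000 : ℂ) * z + (71591678928000 : ℂ) * z ^ 2 + (5113691352000 : ℂ) * z ^ 3 + (-1394643096000 : ℂ) * z ^ 4 + (19757443860000 : ℂ) * z ^ 5 + (13249109412000 : ℂ) * z ^ 6 + (3021726708000 : ℂ) * z ^ 7 + (232440516000 : ℂ) * z ^ 8 := by
  simp only [U, R11, R10, R9, R8, R7, R6, R5, R4, R3, R2, R1, R0]
  norm_num [Nat.factorial, Nat.choose] <;> ring
theorem U_6_3_2 (z : ℂ) : U z 6 3 2 = (167357171520000 : ℂ) + (75310727184000 : ℂ) * z + (-191530985184000 : ℂ) * z ^ 2 + (-38817566172000 : ℂ) * z ^ 3 + (105992875296000 : ℂ) * z ^ 4 + (49044948876000 : ℂ) * z ^ 5 + (2091964644000 : ℂ) * z ^ 6 + (-1859524128000 : ℂ) * z ^ 7 + (-232440516000 : ℂ) * z ^ 8 := by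
  simp only [U, R11, R10, R9, R8, R7, R6, R5, R4, R3, R2, R1, R0]
  norm_num [Nat.factorial, Nat.choose] <;> ring
theorem U_6_4_1 (z : ℂ) : U z 6 4 1 = (-133885737216000 : ℂ) + (-255498615187200 : ℂ) * z + (-105713946676800 : ℂ) * z ^ 2 + (55413819014400 : ℂ) * z ^ 3 + (44512358814000 : ℂ) * z ^ 4 + (743809651200 : ℂ) * z ^ 5 + (-5625060487200 : ℂ) * z ^ 6 + (-1487619302400 : ℂ) * z ^ 7 + (-116220258000 : ℂ) * z ^ 8 := by
  simp only [U, R11, R10, R9, R8, R7, R6, R5, R4, R3, R2, R1, R0]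
  norm_num [Nat.factorial, Nat.choose] <;> ring
theorem U_6_5_0 (z : ℂ) : U z 6 5 0 = (8520001459200 : ℂ) + (24424004183040 : ℂ) * z + (26968171285440 : ℂ) * z ^ 2 + (14188169096640 : ℂ) * z ^ 3 + (3109208865840 : ℂ) * z ^ 4 + (-224833371840 : ℂ) * z ^ 5 + (-254416710240 : ℂ) * z ^ 6 + (-47333341440 : ℂ) * z ^ 7 + (-2958333840 : ℂ) * z ^ 8 := by
  simp only [U, R11, R10, R9, R8, R7, R6, R5, R4, R3, R2, R1, R0]
  norm_num [Nat.factorial, Nat.choose] <;> ring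
theorem U_7_0_4 (z : ℂ) : U z 7 0 4 = (-6520409280000 : ℂ) * z + (-13801532976000 : ℂ) * z ^ 2 + (-9382144464000 : ℂ) * z ^ 3 + (-1753869348000 : ℂ) * z ^ 4 + (633928680000 : ℂ) * z ^ 5 + (338095296000 : ℂ) * z ^ 6 + (54336744000 : ℂ) * z ^ 7 + (3018708000 : ℂ) * z ^ 8 := by
  simp only [U, R11, R10, R9, R8, R7, R6, R5, R4, R3, R2, R1, R0]
  norm_num [Nat.factorial, Nat.choose] <;> ring
theorem U_7_1_3 (z : ℂ) : U z 7 1 3 = (47816334720000 : ℂ) * z + (1024635744000 : ℂ) * z ^ 2 + (-33205788000000 : ℂ) * z ^ 3 + (-5113691352000 : ℂ) * z ^ 4 + (8633504880000 : ℂ) * z ^ 5 + (4051106136000 : ℂ) * z ^ 6 + (664115760000 : ℂ) * z ^ 7 + (37949472000 : ℂ) * z ^ 8 := by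
  simp only [U, R11, R10, R9, R8, R7, R6, R5, R4, R3, R2, R1, R0]
  norm_num [Nat.factorial, Nat.choose] <;> ring
theorem U_7_2_2 (z : ℂ) : U z 7 2 2 = (39846945600000 : ℂ) + (-56070344880000 : ℂ) * z + (-47594962800000 : ℂ) * z ^ 2 + (40677090300000 : ℂ) * z ^ 3 + (45381243600000 : ℂ) * z ^ 4 + (15274662480000 : ℂ) * z ^ 5 + (2213719200000 : ℂ) * z ^ 6 + (118592100000 : ℂ) * z ^ 7 := by
  simp only [U, R11, R10, R9, R8, R7, R6, R5, R4, R3, R2, R1, R0]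
  norm_num [Nat.factorial, Nat.choose] <;> ring
theorem U_7_3_1 (z : ℂ) : U z 7 3 1 = (-47816334720000 : ℂ) + (-24932803104000 : ℂ) * z + (90756162288000 : ℂ) * z ^ 2 + (92245679064000 : ℂ) * z ^ 3 + (20886440652000 : ℂ) * z ^ 4 + (-6873598116000 : ℂ) * z ^ 5 + (-4017900348000 : ℂ) * z ^ 6 + (-668859444000 : ℂ) * z ^ 7 + (-37949472000 : ℂ) * z ^ 8 := by
  simp only [U, R11, R10, R9, R8, R7, R6, R5, R4, R3, R2, R1, R0]
  norm_num [Nat.factorial, Nat.choose] <;> ring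
theorem U_7_4_0 (z : ℂ) : U z 7 4 0 = (4346939520000 : ℂ) + (8476532064000 : ℂ) * z + (2306292912000 : ℂ) * z ^ 2 + (-5789881944000 : ℂ) * z ^ 3 + (-6064584372000 : ℂ) * z ^ 4 + (-2620238544000 : ℂ) * z ^ 5 + (-585629352000 : ℂ) * z ^ 6 + (-66411576000 : ℂ) * z ^ 7 + (-3018708000 : ℂ) * z ^ 8 := by
  simp only [U, R11, R10, R9, R8, R7, R6, R5, R4, R3, R2, R1, R0]
  norm_num [Nat.factorial, Nat.choose] <;> ring
theorem U_8_0_3 (z : ℂ) : U z 8 0 3 = (-4890306960000 : ℂ) * z + (-5072723172000 : ℂ) * z ^ 2 + (-624872556000 : ℂ) * z ^ 3 + (1135788885000 : ℂ) * z ^ 4 + (611288370000 : ℂ) * z ^ 5 + (132823152000 : ℂ) * z ^ 6 + (13584186000 : ℂ) * z ^ 7 + (539055000 : ℂ) * z ^ 8 := by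
  simp only [U, R11, R10, R9, R8, R7, R6, R5, R4, R3, R2, R1, R0]
  norm_num [Nat.factorial, Nat.choose] <;> ring
theorem U_8_1_2 (z : ℂ) : U z 8 1 2 = (3984694560000 : ℂ) + (-7101294948000 : ℂ) * z + (-6926173947000 : ℂ) * z ^ 2 + (4358259675000 : ℂ) * z ^ 3 + (6383120955750 : ℂ) * z ^ 4 + (2689668828000 : ℂ) * z ^ 5 + (540977629500 : ℂ) * z ^ 6 + (53366445000 : ℂ) * z ^ 7 + (2075361750 : ℂ) * z ^ 8 := by
  simp only [U, R11, R10, R9, R8, R7, R6, R5, R4, R3, R2, R1, R0]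
  norm_num [Nat.factorial, Nat.choose] <;> ring
theorem U_8_2_1 (z : ℂ) : U z 8 2 1 = (-7969389120000 : ℂ) + (24662413116000 : ℂ) * z + (40973175243000 : ℂ) * z ^ 2 + (18537131151000 : ℂ) * z ^ 3 + (1281881774250 : ℂ) * z ^ 4 + (-1311628626000 : ℂ) * z ^ 5 + (-413688775500 : ℂ) * z ^ 6 + (-48622761000 : ℂ) * z ^ 7 + (-2075361750 : ℂ) * z ^ 8 := by
  simp only [U, R11, R10, R9, R8, R7, R6, R5, R4, R3, R2, R1, R0]
  norm_num [Nat.factorial, Nat.choose] <;> ring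
theorem U_8_3_0 (z : ℂ) : U z 8 3 0 = (1086734880000 : ℂ) + (100911096000 : ℂ) * z + (-4212822636000 : ℂ) * z ^ 2 + (-5619324942000 : ℂ) * z ^ 3 + (-3226244175000 : ℂ) * z ^ 4 + (-987117516000 : ℂ) * z ^ 5 + (-167538294000 : ℂ) * z ^ 6 + (-14877918000 : ℂ) * z ^ 7 + (-539055000 : ℂ) * z ^ 8 := by
  simp only [U, R11, R10, R9, R8, R7, R6, R5, R4, R3, R2, R1, R0]
  norm_num [Nat.factorial, Nat.choose] <;> ring
theorem U_9_0_2 (z : ℂ) : U z 9 0 2 = (-1086734880000 : ℂ) + (-1021617036000 : ℂ) * z + (135087183000 : ℂ) * z ^ 2 + (527686929000 : ℂ) * z ^ 3 + (277742099250 : ℂ) * z ^ 4 + (70604226000 : ℂ) * z ^ 5 + (9768874500 : ℂ) * z ^ 6 + (706761000 : ℂ) * z ^ 7 + (20963250 : ℂ) * z ^ 8 := by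
  simp only [U, R11, R10, R9, R8, R7, R6, R5, R4, R3, R2, R1, R0]
  norm_num [Nat.factorial, Nat.choose] <;> ring
theorem U_9_1_1 (z : ℂ) : U z 9 1 1 = (2125170432000 : ℂ) + (3650739206400 : ℂ) * z + (2575293336000 : ℂ) * z ^ 2 + (971084822400 : ℂ) * z ^ 3 + (212148090000 : ℂ) * z ^ 4 + (26933583600 : ℂ) * z ^ 5 + (1844766000 : ℂ) * z ^ 6 + (52707600 : ℂ) * z ^ 7 := by
  simp only [U, R11, R10, R9, R8, R7, R6, R5, R4, R3, R2, R1, R0]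
  norm_num [Nat.factorial, Nat.choose] <;> ring
theorem U_9_2_0 (z : ℂ) : U z 9 2 0 = (120748320000 : ℂ) + (-637809876000 : ℂ) * z + (-1305675063000 : ℂ) * z ^ 2 + (-969089121000 : ℂ) * z ^ 3 + (-374173049250 : ℂ) * z ^ 4 + (-82846764000 : ℂ) * z ^ 5 + (-10607404500 : ℂ) * z ^ 6 + (-730719000 : ℂ) * z ^ 7 + (-20963250 : ℂ) * z ^ 8 := by
  simp only [U, R11, R10, R9, R8, R7, R6, R5, R4, R3, R2, R1, R0]
  norm_num [Nat.factorial, Nat.choose] <;> ring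
theorem U_10_0_1 (z : ℂ) : U z 10 0 1 = (43469395200 : ℂ) + (79504143840 : ℂ) * z + (60973589160 : ℂ) * z ^ 2 + (25716038040 : ℂ) * z ^ 3 + (6546403710 : ℂ) * z ^ 4 + (1033068960 : ℂ) * z ^ 5 + (98946540 : ℂ) * z ^ 6 + (5270760 : ℂ) * z ^ 7 + (119790 : ℂ) * z ^ 8 := by
  simp only [U, R11, R10, R9, R8, R7, R6, R5, R4, R3, R2, R1, R0]
  norm_num [Nat.factorial, Nat.choose] <;> ring
theorem U_10_1_0 (z : ℂ) : U z 10 1 0 = (-43469395200 : ℂ) + (-79504143840 : ℂ) * z + (-60973589160 : ℂ) * z ^ 2 + (-25716038040 : ℂ) * z ^ 3 + (-6546403710 : ℂ) * z ^ 4 + (-1033068960 : ℂ) * z ^ 5 + (-98946540 : ℂ) * z ^ 6 + (-5270760 : ℂ) * z ^ 7 + (-119790 : ℂ) * z ^ 8 := by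
  simp only [U, R11, R10, R9, R8, R7, R6, R5, R4, R3, R2, R1, R0]
  norm_num [Nat.factorial, Nat.choose] <;> ring
theorem U_11_0_0 (z : ℂ) : U z 11 0 0 = 0 := by
  simp only [U, R11, R10, R9, R8, R7, R6, R5, R4, R3, R2, R1, R0]
  norm_num [Nat.factorial, Nat.choose] <;> ring
end Pool.Agent.MP7697eaLib
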